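import Pool.Agent.Helper93.PL.St

/-!
# PL, module KDG: k values of a polynomial at once
-/

set_option autoImplicit false

namespace Pool.Agent.Helper82.PL

open Pool.Agent.Helper61.PV Pool.Agent.Helper93.PL Finset

theorem ev_cons (e : ℕ) (V : Fin (e + 1) → ℤ) (m : ℤ) :
    ev (d := e + 1) (Fin.cons (α := fun _ => ℤ) 0 V) m = m * ev V m := by
  unfold ev
  rw [Fin.sum_univ_succ]
  simp only [Fin.cons_zero, zero_mul, Fin.cons_succ, Fin.val_succ, zero_add, Finset.mul_sum]
  apply Finset.sum_congr rfl
  intro i _
  ring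

theorem ev_snoc (e : ℕ) (V : Fin (e + 1) → ℤ) (m : ℤ) :
    ev (d := e + 1) (Fin.snoc (α := fun _ => ℤ) V 0) m = ev V m := by
  unfold ev
  rw [Fin.sum_univ_castSucc]
  simp only [Fin.snoc_castSucc, Fin.snoc_last, zero_mul, add_zero, Fin.val_castSucc]

theorem ev_comb (e : ℕ) (U : Fin (e + 1 + 1) → ℤ) (V : Fin (e + 1) → ℤ) (a m : ℤ) :
    ev (fun i => U i + Fin.cons (α := fun _ => ℤ) 0 V i
      - a * Fin.snoc (α := fun _ => ℤ) V 0 i) m = ev U m + (m - a) * ev V m := by
  have h1 := ev_cons e V m
  have h2 := ev_snoc e V m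
  have h3 : ev (fun i => U i + Fin.cons (α := fun _ => ℤ) 0 V i
      - a * Fin.snoc (α := fun _ => ℤ) V 0 i) m = ev U m
      + ev (d := e + 1) (Fin.cons (α := fun _ => ℤ) 0 V) m
      - a * ev (d := e + 1) (Fin.snoc (α := fun _ => ℤ) V 0) m := by
    unfold ev
    rw [Finset.mul_sum, ← Finset.sum_add_distrib, ← Finset.sum_sub_distrib]
    apply Finset.sum_congr rfl
    intro i _
    ring
  rw [h3, h1, h2]
  ring

theorem digits (hDig : StDig) (d m B : ℕ) (hm : 1 ≤ m) (hB : m ≤ B) (u : ℕ) :
    ∃ b : Fin (d + 1) → ℤ, u < m ^ d * B → (∀ i, 0 ≤ b i) ∧ (∀ i, b i < B) ∧ ev b m = u := by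
  by_cases hu : u < m ^ d * B
  · obtain ⟨b, b1, b2, b3, b4⟩ := hDig d m B u hm hu
    refine ⟨b, fun _ => ⟨b1, fun i => ?_, b4⟩⟩
    by_cases hi : (i : ℕ) < d
    · have h1 := b2 i hi
      have h2 : (m : ℤ) ≤ B := by exact_mod_cast hB
      omega
    · have h1 : i = Fin.last d := by
        ext
        have := i.isLt
        simp only [Fin.val_last]
        omega
      rw [h1]
      exact b3
  · exact ⟨0, fun h => absurd h hu⟩

theorem qd_zero {k : ℕ} (m : Fin (k + 1) → ℕ) : qd m 0 = 1 := by
  unfold qd
  rw [Finset.filter_false_of_mem]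
  · rfl
  · intro i _
    exact Fin.not_lt_zero i

theorem qd_succ {k : ℕ} (m : Fin (k + 1) → ℕ) (j : Fin k) :
    qd m j.succ = (m j.succ - m 0) * qd (Fin.tail m) j := by
  unfold qd
  rw [Finset.prod_filter, Finset.prod_filter, Fin.prod_univ_succ, if_pos (Fin.succ_pos j)]
  congr 1
  apply Finset.prod_congr rfl
  intro i _
  simp only [Fin.succ_lt_succ_iff, Fin.tail]

theorem hKdg (hDig : StDig) : Pool.Agent.Helper93.PL.StKdg := by
  intro k
  induction k with
  | zero =>
    intro d B M m _ _ _ _
    refine ⟨fun _ _ => 0, fun _ _ => 0, fun j => j.elim0, fun u _ => ⟨fun i => ?_, fun j => j.elim0⟩⟩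
    rw [abs_zero]
    positivity
  | succ k ih =>
    intro d B M m hk hmono hM hMB
    choose U hU using digits hDig d (m 0) B (hM 0).1 ((hM 0).2.trans hMB)
    cases d with
    | zero =>
      have hk0 : k = 0 := by omega
      subst hk0
      refine ⟨fun _ _ => 0, fun u => U (u 0), fun _ _ _ _ => rfl, fun u hu => ?_⟩
      obtain ⟨u1, u2, u3⟩ := hU (u 0) (by simpa using hu 0)
      refine ⟨fun i => ?_, fun j => ?_⟩
      · have h1 := u1 i
        have h2 := u2 i
        rw [abs_of_nonneg h1]
        push_cast
        have h3 : (0 : ℤ) ≤ B := by positivity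
        have h4 : (0 : ℤ) ≤ M := by positivity
        nlinarith
      · have hj : j = 0 := Fin.ext (by omega)
        rw [hj, qd_zero, u3]
        push_cast
        ring
    | succ e =>
      obtain ⟨t', b', ht', hb'⟩ := ih e B M (Fin.tail m) (by omega)
        (fun i j hij => hmono (Fin.succ_lt_succ_iff.2 hij)) (fun j => hM j.succ) hMB
      refine ⟨fun j u => Fin.cases (motive := fun _ => ℤ) 0
          (fun j' => ev (U (u 0)) (m j'.succ) + ((m j'.succ : ℤ) - m 0) * t' j' (Fin.tail u)) j,
        fun u i => U (u 0) i + Fin.cons (α := fun _ => ℤ) 0 (b' (Fin.tail u)) i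
          - (m 0 : ℤ) * Fin.snoc (α := fun _ => ℤ) (b' (Fin.tail u)) 0 i, ?_, ?_⟩
      · intro j u u'
        refine Fin.cases ?_ (fun j' => ?_) j
        · intro _
          rfl
        · intro h
          have h0 : u 0 = u' 0 := h 0 (Fin.succ_pos j')
          have h1 : t' j' (Fin.tail u) = t' j' (Fin.tail u') :=
            ht' j' _ _ (fun i hi => h i.succ (Fin.succ_lt_succ_iff.2 hi))
          simp only [Fin.cases_succ]
          rw [h0, h1]
      · intro u hu
        obtain ⟨u1, u2, u3⟩ := hU (u 0) (by simpa using hu 0)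
        obtain ⟨w1, w2⟩ := hb' (Fin.tail u) (fun j => by
          have h := hu j.succ
          rw [Fin.val_succ, Nat.add_sub_add_right] at h
          exact h)
        refine ⟨fun i => ?_, fun j => ?_⟩
        · have hP : (0 : ℤ) < ((M + 2) ^ k : ℕ) := by positivity
          have hB0 : (0 : ℤ) ≤ B := by positivity
          have hM0 : (0 : ℤ) ≤ M := by positivity
          have hm0 : (0 : ℤ) ≤ m 0 := by positivity
          have hmM : (m 0 : ℤ) ≤ M := by exact_mod_cast (hM 0).2
          set R : ℤ := ((((M + 2) ^ k * B : ℕ)) : ℤ) with hR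
          have hR0 : 0 ≤ R := by positivity
          have hRB : (B : ℤ) ≤ R := by
            rw [hR]
            push_cast at hP ⊢
            nlinarith
          have c1 : |Fin.cons (α := fun _ => ℤ) 0 (b' (Fin.tail u)) i| ≤ R := by
            refine Fin.cases ?_ (fun j => ?_) i
            · simp only [Fin.cons_zero, abs_zero]
              exact hR0
            · simp only [Fin.cons_succ]
              exact w1 j
          have c2 : |Fin.snoc (α := fun _ => ℤ) (b' (Fin.tail u)) 0 i| ≤ R := by
            refine Fin.lastCases ?_ (fun j => ?_) i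
            · simp only [Fin.snoc_last, abs_zero]
              exact hR0
            · simp only [Fin.snoc_castSucc]
              exact w1 j
          have hgoal : ((((M + 2) ^ (k + 1) * B : ℕ)) : ℤ) = (M + 2) * R := by
            rw [hR]
            push_cast
            ring
          rw [hgoal]
          beta_reduce
          have hu1 := u1 i
          have hu2 := u2 i
          generalize (Fin.cons (α := fun _ => ℤ) 0 (b' (Fin.tail u)) i) = x at c1 ⊢
          generalize (Fin.snoc (α := fun _ => ℤ) (b' (Fin.tail u)) 0 i) = y at c2 ⊢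
          rw [abs_le] at c1 c2 ⊢
          obtain ⟨c11, c12⟩ := c1
          obtain ⟨c21, c22⟩ := c2
          have e1 : (m 0 : ℤ) * y ≤ M * R := by
            have : (m 0 : ℤ) * y ≤ m 0 * R := mul_le_mul_of_nonneg_left c22 hm0
            have h2 : (m 0 : ℤ) * R ≤ M * R := mul_le_mul_of_nonneg_right hmM hR0
            linarith
          have e2 : -((M : ℤ) * R) ≤ (m 0 : ℤ) * y := by
            have : (m 0 : ℤ) * (-R) ≤ m 0 * y := mul_le_mul_of_nonneg_left c21 hm0
            have h2 : (m 0 : ℤ) * R ≤ M * R := mul_le_mul_of_nonneg_right hmM hR0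
            linarith
          constructor <;> linarith
        · rw [ev_comb]
          refine Fin.cases ?_ (fun j' => ?_) j
          · rw [u3, qd_zero]
            simp only [Fin.cases_zero]
            push_cast
            ring
          · have h1 := w2 j'
            have h2 : m 0 ≤ m j'.succ := (hmono (Fin.succ_pos j')).le
            simp only [Fin.cases_succ]
            rw [qd_succ]
            push_cast [Nat.cast_sub h2]
            change ev (b' (Fin.tail u)) ((m j'.succ : ℕ) : ℤ) = t' j' (Fin.tail u) +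
              (qd (Fin.tail m) j' : ℤ) * ((u j'.succ : ℕ) : ℤ) at h1
            rw [h1]
            ring

end Pool.Agent.Helper82.PL
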